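import Pool.Agent.H454R3.Att.Aed

/-!
# Every attractive computably enumerable degree is almost everywhere dominating
-/

set_option autoImplicit false

namespace Pool.Agent.Results.MP_9fb7a1_lc.AttractiveDominating

open Pool.Agent.H454R3.Att Pool.Agent.Helper578.JD

/-- Sanity check: two sets have the same class in the metric space exactly if they are coarsely
similar. -/
theorem sanity_classes (A B : Set ℕ) : cls A = cls B ↔
    Filter.Tendsto (fun n : ℕ => ((symmDiff A B ∩ Set.Iio n).ncard : ℝ) / n) Filter.atTop
      (nhds 0) := cls_eq_iff A B

/-- If the Turing degree of `A` contains a c.e. set, and `A` is attractive, i.e. `H(A, B) = 1/2`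
for almost every `B`, then `A` is almost everywhere dominating. -/
theorem result (A : Set ℕ) (hce : ∃ W : Set ℕ, REPred (fun n => n ∈ W) ∧ TEqv W A)
    (hatt : Attractive A) : AEDominating A := by
  obtain ⟨W, hW, hWA⟩ := hce
  exact aed_of_attractive hW hWA hatt

end Pool.Agent.Results.MP_9fb7a1_lc.AttractiveDominating
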